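import Mathlib
import Pool.Agent.H759R2.Kad.Props7

open scoped ComplexOrder InnerProductSpace ComplexConjugate
open Finset

noncomputable section

namespace H759R2.Kad

universe u v

namespace ARVN

theorem lvl_sub {B : Type u} [CStarAlgebra B] [PartialOrder B] [StarOrderedRing B] {K : Type v}
    [NormedAddCommGroup K] [InnerProductSpace ℂ K] [Subsingleton K]
    (w : B →ₗ[ℂ] (K →L[ℂ] K)) (L : ℕ) (γ : ℝ) (hγ : 0 ≤ γ) : LvlBd w L γ := by
  intro Y
  have : amp w (Fin L) Y = 0 := by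
    ext x
    exact Subsingleton.elim _ _
  rw [this, norm_zero]
  positivity

end ARVN

theorem prove7_vn (h1 : R_cen.{u, v}) (h2 : R_simb.{u, v}) (h3 : R_loc.{u, v}) (h4 : Q_ex.{u})
    (h5 : Q_fac.{u, v}) (h6 : Q_lvl.{u, v}) (h7 : Q_all.{u, v}) : R_vn.{u, v} := by
  intro A _ _ _ hVN H _ _ _ w hw c hc hwc m
  obtain ⟨S, S', hSS', hS'S, hS, hS', hst⟩ := h1 A H w hw c hc hwc
  have hc0 : 0 ≤ c := zero_le_one.trans hc
  let w1 : A →ₗ[ℂ] (H →L[ℂ] H) :=
    { toFun := fun a => S * w a * S'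
      map_add' := fun a b => by rw [map_add, mul_add, add_mul]
      map_smul' := fun t a => by
        rw [map_smul, mul_smul_comm, smul_mul_assoc, RingHom.id_apply] }
  have hw1 : ∀ a, w1 a = S * w a * S' := fun a => rfl
  have hH1 : IsHom w1 := by
    refine ⟨fun a b => ?_, ?_⟩
    · rw [hw1, hw1, hw1, hw.mul]
      calc S * (w a * w b) * S' = S * w a * (1 * (w b * S')) := by
            rw [one_mul]; simp only [mul_assoc]
        _ = S * w a * ((S' * S) * (w b * S')) := by rw [hS'S]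
        _ = S * w a * S' * (S * w b * S') := by simp only [mul_assoc]
    · rw [hw1, hw.one, mul_one, hSS']
  have hnS : ‖S‖ * ‖S'‖ ≤ 6 * c ^ 2 := by
    nlinarith [sq_nonneg (‖S‖ - ‖S'‖)]
  set c1 : ℝ := 6 * c ^ 3 with hc1
  have hcc : (1 : ℝ) ≤ c ^ 3 := one_le_pow₀ hc
  have hc11 : 1 ≤ c1 := by rw [hc1]; linarith
  have hb1 : ∀ a, ‖w1 a‖ ≤ c1 * ‖a‖ := by
    intro a
    rw [hw1]
    calc ‖S * w a * S'‖ ≤ ‖S * w a‖ * ‖S'‖ := norm_mul_le _ _
      _ ≤ (‖S‖ * ‖w a‖) * ‖S'‖ := by gcongr; exact norm_mul_le _ _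
      _ = (‖S‖ * ‖S'‖) * ‖w a‖ := by ring
      _ ≤ (6 * c ^ 2) * (c * ‖a‖) := by gcongr; exact hwc a
      _ = c1 * ‖a‖ := by rw [hc1]; ring
  have hK0 : 0 ≤ 432 * c1 ^ 25 := by positivity
  have key : LvlBd w1 m (432 * c1 ^ 25) := by
    refine h3 A c1 (432 * c1 ^ 25) m hc11 hK0 ?_ H w1 hH1 hb1 (fun e he => ?_)
    · intro H' _ _ _ w' hw' hbw' hce
      rcases subsingleton_or_nontrivial H' with hsub | hnt
      · exact ARVN.lvl_sub w' m _ hK0
      have h10 : (1 : H' →L[ℂ] H') ≠ 0 := by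
        obtain ⟨x, hx⟩ := exists_ne (0 : H')
        intro h
        apply hx
        have := congrArg (fun T : H' →L[ℂ] H' => T x) h
        simpa using this
      let 𝒰 : Set A := {e | CPrj e ∧ w' e = 1}
      have hU : Ult 𝒰 := by
        refine ⟨fun z hz => hz.1, ?_, ?_, ?_, ?_⟩
        · exact ⟨⟨⟨star_one _, one_mul _⟩, fun a => by rw [one_mul, mul_one]⟩, hw'.one⟩
        · rintro ⟨_, h⟩
          rw [map_zero] at h
          exact h10 h.symm
        · rintro z ⟨⟨⟨hz1, hz2⟩, hz3⟩, hz4⟩ z' ⟨⟨⟨hz1', hz2'⟩, hz3'⟩, hz4'⟩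
          refine ⟨⟨⟨?_, ?_⟩, ?_⟩, ?_⟩
          · rw [star_mul, hz1, hz1', hz3' z]
          · calc z * z' * (z * z') = z * (z' * z) * z' := by simp only [mul_assoc]
              _ = z * (z * z') * z' := by rw [hz3' z]
              _ = (z * z) * (z' * z') := by simp only [mul_assoc]
              _ = z * z' := by rw [hz2, hz2']
          · intro a
            rw [mul_assoc, hz3' a, ← mul_assoc, hz3 a, mul_assoc]
          · rw [hw'.mul, hz4, hz4', one_mul]
        · intro z hz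
          rcases hce z hz with h | h
          · right
            obtain ⟨⟨hz1, hz2⟩, hz3⟩ := hz
            refine ⟨⟨⟨?_, ?_⟩, ?_⟩, ?_⟩
            · rw [star_sub, star_one, hz1]
            · rw [sub_mul, one_mul, mul_sub, mul_one, hz2, sub_self, sub_zero]
            · intro a
              rw [sub_mul, mul_sub, one_mul, mul_one, hz3 a]
            · rw [map_sub, hw'.one, h, sub_zero]
          · left
            exact ⟨hz, h⟩
      obtain ⟨F, hF, q, hFib⟩ := h4 A 𝒰 hU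
      let _ : PartialOrder F := CStarAlgebra.spectralOrder F
      have _ : StarOrderedRing F := CStarAlgebra.spectralOrderedRing F
      obtain ⟨w'', hw'', hb'', hq⟩ := h5 A 𝒰 F q hFib H' w' hw' c1 (zero_le_one.trans hc11) hbw'
        (fun z hz => hz.2)
      exact h6 A F q H' w' w'' hq m _ hK0 (h7 A hVN 𝒰 F q hFib H' w'' hw'' c1 hc11 hb'' m)
    · rw [hw1]
      exact hst e he
  have hfin := h2 A H w w1 S S' (6 * c ^ 2) (432 * c1 ^ 25) m (by positivity) hK0 hSS' hS'S hS hS'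
    hw1 key
  have he : 6 * c ^ 2 * (432 * c1 ^ 25) = 2592 * 6 ^ 25 * c ^ 77 := by
    rw [hc1, mul_pow, ← pow_mul]
    ring
  rwa [he] at hfin

end H759R2.Kad
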